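import Pool.Agent.Helper11.NH.Sheet
import Pool.Agent.Helper94.PU.Step

/-! Row TREE of project NH (MP_665203_co): the tree of three tripod points. -/

open MeasureTheory Metric Set Filter Topology Real
open scoped ENNReal NNReal

namespace H11ST
namespace NH

open PU (Ray ray_step tri_arm)

/-- the arm from `y` in the direction `e` ends after the length `c` -/
structure End (S : Set (E 2)) (y e : E 2) (c : ℝ) : Prop where
  pos : 0 < c
  le : ‖y + c • e‖ ≤ 1
  ray : Ray S y e c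
  mem : y + c • e ∈ S
  fin : ‖y + c • e‖ = 1 ∨ ‖y + c • e‖ < 1 ∧ ∃ u ε, Tri S (y + c • e) u ε ∧ ∃ j, u j = -e

theorem ray_mem {S : Set (E 2)} (hS : IsClosed S) {y e : E 2} {c : ℝ} (hc : 0 < c)
    (h : Ray S y e c) : y + c • e ∈ S := by
  have ht : Tendsto (fun s : ℝ => y + s • e) (𝓝[<] c) (𝓝 (y + c • e)) := by
    refine Tendsto.mono_left ?_ nhdsWithin_le_nhds
    exact Continuous.tendsto (by fun_prop) c
  refine hS.mem_of_tendsto ht ?_
  filter_upwards [Ioo_mem_nhdsLT hc] with s hs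
  obtain ⟨ε, h⟩ := h s hs.1 hs.2
  exact h.z_mem

/-- convexity of the norm on the ray -/
theorem norm_ray_le {y e : E 2} {s c : ℝ} (h0 : 0 ≤ s) (h1 : s ≤ c) (hc : 0 < c) :
    ‖y + s • e‖ ≤ (1 - s / c) * ‖y‖ + s / c * ‖y + c • e‖ := by
  have e1 : y + s • e = (1 - s / c) • y + (s / c) • (y + c • e) := by
    rw [smul_add, smul_smul, div_mul_cancel₀ _ hc.ne', ← add_assoc, ← add_smul]
    simp
  have h2 : 0 ≤ 1 - s / c := by
    rw [sub_nonneg, div_le_one hc]
    exact h1
  have h3 : 0 ≤ s / c := div_nonneg h0 hc.le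
  calc ‖y + s • e‖ = ‖(1 - s / c) • y + (s / c) • (y + c • e)‖ := by rw [← e1]
    _ ≤ ‖(1 - s / c) • y‖ + ‖(s / c) • (y + c • e)‖ := norm_add_le _ _
    _ = (1 - s / c) * ‖y‖ + s / c * ‖y + c • e‖ := by
      rw [norm_smul, norm_smul, Real.norm_of_nonneg h2, Real.norm_of_nonneg h3]

theorem norm_ray_lt {y e : E 2} {s c b : ℝ} (h0 : 0 ≤ s) (h1 : s < c) (hy : ‖y‖ < b)
    (hc : ‖y + c • e‖ ≤ b) : ‖y + s • e‖ < b := by
  have hc0 : 0 < c := lt_of_le_of_lt h0 h1
  have h2 := norm_ray_le (y := y) (e := e) h0 h1.le hc0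
  have h3 : 0 < 1 - s / c := by
    rw [sub_pos, div_lt_one hc0]
    exact h1
  have h4 : 0 ≤ s / c := div_nonneg h0 hc0.le
  nlinarith

theorem exit_exists {y e : E 2} (hy : ‖y‖ < 1) (he : ‖e‖ = 1) :
    ∃ c : ℝ, 0 < c ∧ ‖y + c • e‖ = 1 := by
  have hcont : ContinuousOn (fun s : ℝ => ‖y + s • e‖) (Icc 0 2) := by fun_prop
  have h2 : 1 ≤ ‖y + (2 : ℝ) • e‖ := by
    have h3 : ‖(2 : ℝ) • e‖ = 2 := by
      rw [norm_smul, he]
      norm_num
    have h4 : ‖(2 : ℝ) • e‖ ≤ ‖y + (2 : ℝ) • e‖ + ‖y‖ := by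
      have := norm_sub_le (y + (2 : ℝ) • e) y
      rwa [add_sub_cancel_left] at this
    linarith
  have h0 : ‖y + (0 : ℝ) • e‖ ≤ 1 := by
    rw [zero_smul, add_zero]
    exact hy.le
  obtain ⟨c, hc, hc1⟩ := intermediate_value_Icc (by norm_num) hcont ⟨h0, h2⟩
  refine ⟨c, lt_of_le_of_ne hc.1 ?_, hc1⟩
  rintro rfl
  have h5 : ‖y + (0 : ℝ) • e‖ = 1 := hc1
  rw [zero_smul, add_zero] at h5
  linarith

theorem tri_ymem {S : Set (E 2)} {y : E 2} {u : Fin 3 → E 2} {ε : ℝ} (T : Tri S y u ε) : y ∈ S := by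
  have := T.mem (i := 0) (s := 0) le_rfl T.pos
  simpa using this

theorem arm_end {A S : Set (E 2)} {r : ℝ} (h : Setup A S r) {y : E 2} {u : Fin 3 → E 2} {ε : ℝ}
    (T : Tri S y u ε) (hy : ‖y‖ < 1) (i : Fin 3) : ∃ c, End S y (u i) c := by
  obtain ⟨c, hc, hc1⟩ := exit_exists hy (T.norm i)
  have hreg : ∀ z ∈ S ∩ ball 0 1, (∃ u ε, Lin S z u ε) ∨ ∃ u ε, Tri S z u ε := fun z hz =>
    h.reg z ⟨hz.1, ball_subset_ball h.r1.le hz.2⟩
  obtain ⟨ε₀, hε₀, hst⟩ := tri_arm T i
  by_cases hall : ∀ s, 0 < s → s < c → ∀ s', 0 < s' → s' ≤ s → ∃ ε, Lin S (y + s' • u i) (u i) ε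
  · have hray : Ray S y (u i) c := fun s' h0 h1 => hall s' h0 h1 s' h0 le_rfl
    exact ⟨c, hc, hc1.le, hray, ray_mem h.L.hS hc hray, Or.inl hc1⟩
  · push Not at hall
    obtain ⟨s, hs0, hs1, s', h0, h1, hno⟩ := hall
    have hlt : ‖y + s • u i‖ < 1 := norm_ray_lt hs0.le hs1 hy hc1.le
    rcases ray_step h.L.hS hreg (T.norm i) hy hlt hs0 hε₀ hst with h2 | ⟨t, t0, t1, hR, u', ε', T', hu'⟩
    · obtain ⟨ε', hL⟩ := h2 s' h0 h1
      exact absurd hL (hno ε')
    · have hlt' : ‖y + t • u i‖ < 1 := norm_ray_lt t0.le (lt_of_le_of_lt t1 hs1) hy hc1.le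
      exact ⟨t, t0, hlt'.le, hR, tri_ymem T', Or.inr ⟨hlt', u', ε', T', 0, hu'⟩⟩

/-- the directions of a tripod are unique -/
theorem tri_dir {S : Set (E 2)} {y : E 2} {u u' : Fin 3 → E 2} {ε ε' : ℝ} (T : Tri S y u ε)
    (T' : Tri S y u' ε') (i : Fin 3) : ∃ j, u' j = u i := by
  set r := min ε ε' / 2 with hr
  have hr0 : 0 < r := by
    have := lt_min T.pos T'.pos
    rw [hr]; linarith
  have hr1 : r < ε := by
    have := min_le_left ε ε'
    have := T.pos
    rw [hr]; linarith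
  have hr2 : r < ε' := by
    have := min_le_right ε ε'
    have := T'.pos
    rw [hr]; linarith
  have h4 : y + r • u i ∈ S ∩ ball y ε' := by
    refine ⟨T.mem hr0.le hr1, ?_⟩
    rw [mem_ball, dist_eq_norm]
    simp only [add_sub_cancel_left, norm_smul, T.norm i, Real.norm_eq_abs, mul_one, abs_of_pos hr0]
    exact hr2
  rw [T'.eq] at h4
  obtain ⟨j, t, ht0, _, ht⟩ := h4
  refine ⟨j, ?_⟩
  have h5 : r • u i = t • u' j := add_left_cancel ht
  have h6 : r = t := by
    have := congrArg norm h5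
    rw [norm_smul, norm_smul, T.norm i, T'.norm j, Real.norm_eq_abs, Real.norm_eq_abs,
      abs_of_pos hr0, abs_of_nonneg ht0, mul_one, mul_one] at this
    exact this
  rw [← h6] at h5
  exact (smul_right_injective _ hr0.ne' h5).symm

theorem tri_inj {S : Set (E 2)} {y : E 2} {u : Fin 3 → E 2} {ε : ℝ} (T : Tri S y u ε) {i j : Fin 3}
    (h : u i = u j) : i = j := by
  by_contra hne
  have h1 := T.ang i j hne
  rw [h, real_inner_self_eq_norm_sq, T.norm j] at h1
  norm_num at h1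

theorem pos_smul_unit {e e' : E 2} {s t : ℝ} (he : ‖e‖ = 1) (he' : ‖e'‖ = 1) (hs : 0 < s)
    (ht : 0 < t) (h : s • e = t • e') : s = t ∧ e = e' := by
  have h6 : s = t := by
    have := congrArg norm h
    rw [norm_smul, norm_smul, he, he', Real.norm_eq_abs, Real.norm_eq_abs, abs_of_pos hs,
      abs_of_pos ht, mul_one, mul_one] at this
    exact this
  refine ⟨h6, ?_⟩
  rw [← h6] at h
  exact smul_right_injective _ hs.ne' h

/-- going back along an arm -/
theorem end_back {S : Set (E 2)} {y w e : E 2} {u : Fin 3 → E 2} {ε c c' : ℝ} (T : Tri S y u ε)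
    (hy : ‖y‖ < 1) (h : End S y e c) (hw : w = y + c • e) (h' : End S w (-e) c') :
    w + c' • (-e) = y := by
  have key : ∀ s : ℝ, w + s • (-e) = y + (c - s) • e := by
    intro s
    rw [hw, sub_smul, smul_neg]
    abel
  rcases lt_trichotomy c' c with hlt | heq | hgt
  · exfalso
    obtain ⟨ε', hL⟩ := h.ray (c - c') (by linarith) (by linarith [h'.pos])
    have hn : ‖y + (c - c') • e‖ < 1 :=
      norm_ray_lt (by linarith) (by linarith [h'.pos]) hy h.le
    rcases h'.fin with h1 | ⟨-, u', ε'', T', -⟩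
    · rw [key] at h1
      linarith
    · rw [key] at T'
      exact lin_not_tri hL T'
  · rw [key, heq, sub_self, zero_smul, add_zero]
  · exfalso
    obtain ⟨ε', hL⟩ := h'.ray c h.pos hgt
    rw [key, sub_self, zero_smul, add_zero] at hL
    exact lin_not_tri hL T

/-- two ends of the arms of a tripod are farther from each other than from the tripod -/
theorem far {S : Set (E 2)} {y : E 2} {u : Fin 3 → E 2} {ε : ℝ} (T : Tri S y u ε) {i j : Fin 3}
    (hij : i ≠ j) {a b : ℝ} (ha : 0 < a) (hb : 0 < b) :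
    dist y (y + b • u j) < dist (y + a • u i) (y + b • u j) := by
  have h1 : dist y (y + b • u j) ^ 2 = b ^ 2 := by
    rw [dist_comm, dist_eq_norm, add_sub_cancel_left, norm_smul, T.norm j, mul_one, Real.norm_eq_abs,
      sq_abs]
  have h2 : dist (y + a • u i) (y + b • u j) ^ 2 = a ^ 2 + b ^ 2 + a * b := by
    rw [dist_eq_norm, add_sub_add_left_eq_sub, ← real_inner_self_eq_norm_sq, inner_sub_left,
      inner_sub_right, inner_sub_right, inner_smul_left, inner_smul_right, inner_smul_left,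
      inner_smul_right, inner_smul_left, inner_smul_right, inner_smul_left, inner_smul_right,
      real_inner_self_eq_norm_sq, real_inner_self_eq_norm_sq, T.norm i, T.norm j, T.ang i j hij,
      T.ang j i hij.symm]
    simp only [conj_trivial]
    ring
  have h3 : dist y (y + b • u j) ^ 2 < dist (y + a • u i) (y + b • u j) ^ 2 := by
    rw [h1, h2]
    nlinarith [mul_pos ha hb, pow_pos ha 2]
  exact lt_of_pow_lt_pow_left₀ 2 dist_nonneg h3

theorem cos120 : Real.cos (2 * π / 3) = -(1 / 2) := by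
  rw [show 2 * π / 3 = π - π / 3 by ring, Real.cos_pi_sub, Real.cos_pi_div_three]

theorem sin120 : Real.sin (2 * π / 3) = √3 / 2 := by
  rw [show 2 * π / 3 = π - π / 3 by ring, Real.sin_pi_sub, Real.sin_pi_div_three]

theorem dir120 {α : ℝ} {e : E 2} (he : ‖e‖ = 1) (h : inner ℝ (ev α) e = -(1 / 2 : ℝ)) :
    e = ev (α + 2 * π / 3) ∨ e = ev (α - 2 * π / 3) := by
  have h1 := PU.norm2 e
  rw [he] at h1
  rw [PU.inner2] at h
  simp only [ev, PiLp.toLp_apply, Matrix.cons_val_zero, Matrix.cons_val_one] at h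
  have hsc := Real.sin_sq_add_cos_sq α
  set q : ℝ := -Real.sin α * e 0 + Real.cos α * e 1 with hq
  have e0 : e 0 = -(1 / 2) * Real.cos α - q * Real.sin α := by
    rw [hq]
    linear_combination (-(e 0)) * hsc + Real.cos α * h
  have e1 : e 1 = -(1 / 2) * Real.sin α + q * Real.cos α := by
    rw [hq]
    linear_combination (-(e 1)) * hsc + Real.sin α * h
  have hq2 : (q - √3 / 2) * (q + √3 / 2) = 0 := by
    have h3 := PU.s3
    have : q ^ 2 = 3 / 4 := by
      have h4 : e 0 ^ 2 + e 1 ^ 2 = (1 / 4 + q ^ 2) * (Real.sin α ^ 2 + Real.cos α ^ 2) := by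
        rw [e0, e1]
        ring
      rw [hsc, ← h1] at h4
      linarith
    nlinarith
  rcases mul_eq_zero.1 hq2 with h4 | h4
  · left
    have hq' : q = √3 / 2 := by linarith
    refine PU.ext2 ?_ ?_
    · rw [e0, hq']
      simp only [ev, PiLp.toLp_apply, Matrix.cons_val_zero]
      rw [Real.cos_add, cos120, sin120]
      ring
    · rw [e1, hq']
      show _ = Real.sin (α + 2 * π / 3)
      rw [Real.sin_add, cos120, sin120]
      ring
  · right
    have hq' : q = -(√3 / 2) := by linarith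
    refine PU.ext2 ?_ ?_
    · rw [e0, hq']
      simp only [ev, PiLp.toLp_apply, Matrix.cons_val_zero]
      rw [Real.cos_sub, cos120, sin120]
      ring
    · rw [e1, hq']
      show _ = Real.sin (α - 2 * π / 3)
      rw [Real.sin_sub, cos120, sin120]
      ring

/-- the other two arms of a tripod -/
theorem tri_two {S : Set (E 2)} {y : E 2} {u : Fin 3 → E 2} {ε : ℝ} (T : Tri S y u ε) {i : Fin 3}
    {α : ℝ} (hi : u i = ev α) : ∃ j k, i ≠ j ∧ i ≠ k ∧ j ≠ k ∧ u j = ev (α + 2 * π / 3) ∧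
      u k = ev (α - 2 * π / 3) := by
  obtain ⟨j, k, hij, hik, hjk⟩ : ∃ j k : Fin 3, i ≠ j ∧ i ≠ k ∧ j ≠ k := by
    have : ∀ i : Fin 3, ∃ j k : Fin 3, i ≠ j ∧ i ≠ k ∧ j ≠ k := by decide
    exact this i
  have h1 := T.ang i j hij
  have h2 := T.ang i k hik
  rw [hi] at h1 h2
  have hne : u j ≠ u k := fun h => hjk (tri_inj T h)
  rcases dir120 (T.norm j) h1 with a | a <;> rcases dir120 (T.norm k) h2 with b | b
  · exact absurd (a.trans b.symm) hne
  · exact ⟨j, k, hij, hik, hjk, a, b⟩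
  · exact ⟨k, j, hik, hij, hjk.symm, b, a⟩
  · exact absurd (a.trans b.symm) hne

theorem unit_ev {e : E 2} (he : ‖e‖ = 1) : ∃ α, e = ev α := by
  obtain ⟨θ, -, h⟩ := exists_angle (x := 0) (z := e) (ρ := 1) one_pos
    (by rw [mem_sphere_zero_iff_norm]; exact he)
  exact ⟨θ, by rw [h, zero_add, one_smul]⟩

theorem ev_add_pi (α : ℝ) : ev (α + π) = -ev α := by
  refine PU.ext2 ?_ ?_ <;> simp [ev, Real.cos_add_pi, Real.sin_add_pi]

theorem ev_sub_pi (α : ℝ) : ev (α - π) = -ev α := by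
  refine PU.ext2 ?_ ?_ <;> simp [ev, Real.cos_sub_pi, Real.sin_sub_pi]

theorem ev_two_pi (α : ℝ) : ev (α + 2 * π) = ev α := by
  refine PU.ext2 ?_ ?_ <;> simp [ev, Real.cos_add_two_pi, Real.sin_add_two_pi]

/-- the segment of an arm is in `S` -/
theorem End.seg {S : Set (E 2)} {y e : E 2} {c : ℝ} (h : End S y e c) (hy : y ∈ S) :
    segment ℝ y (y + c • e) ⊆ S := by
  rw [segment_eq_image']
  rintro z ⟨θ, ⟨h0, h1⟩, rfl⟩
  simp only [add_sub_cancel_left, smul_smul]
  rcases h0.eq_or_lt with h2 | h2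
  · rw [← h2, zero_mul, zero_smul, add_zero]
    exact hy
  · rcases h1.eq_or_lt with h3 | h3
    · rw [h3, one_mul]
      exact h.mem
    · obtain ⟨ε, hL⟩ := h.ray (θ * c) (mul_pos h2 h.pos) (by nlinarith [h.pos])
      exact hL.z_mem

theorem mem_seg {y e : E 2} {s c : ℝ} (h0 : 0 ≤ s) (h1 : s ≤ c) (hc : 0 < c) :
    y + s • e ∈ segment ℝ y (y + c • e) := by
  rw [segment_eq_image']
  refine ⟨s / c, ⟨div_nonneg h0 hc.le, (div_le_one hc).2 h1⟩, ?_⟩
  simp only [add_sub_cancel_left, smul_smul]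
  rw [div_mul_cancel₀ _ hc.ne']

theorem gdist' {z u : E 2} (hu : ‖u‖ = 1) (s : ℝ) : dist (z + s • u) z = |s| := by
  rw [dist_eq_norm]
  simp [norm_smul, hu]

/-- inner points of an arm -/
theorem End.loc {S : Set (E 2)} {y e z : E 2} {c : ℝ} (h : End S y e c)
    (hz : z ∈ segment ℝ y (y + c • e)) (h1 : z ≠ y) (h2 : z ≠ y + c • e) :
    ∃ ε > 0, S ∩ ball z ε ⊆ segment ℝ y (y + c • e) := by
  rw [segment_eq_image'] at hz
  obtain ⟨θ, ⟨t0, t1⟩, rfl⟩ := hz
  simp only [add_sub_cancel_left, smul_smul] at h1 h2 ⊢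
  have t0' : 0 < θ := by
    refine lt_of_le_of_ne t0 ?_
    rintro rfl
    exact h1 (by rw [zero_mul, zero_smul, add_zero])
  have t1' : θ < 1 := by
    refine lt_of_le_of_ne t1 ?_
    rintro rfl
    exact h2 (by rw [one_mul])
  have hc := h.pos
  have p0 : 0 < θ * c := mul_pos t0' hc
  have p1 : θ * c < c := by nlinarith
  obtain ⟨ε, hL⟩ := h.ray (θ * c) p0 p1
  refine ⟨min ε (min (θ * c) (c - θ * c)), lt_min hL.pos (lt_min p0 (by linarith)), ?_⟩
  rintro v ⟨hv, hvb⟩
  have h3 : v ∈ S ∩ ball (y + (θ * c) • e) ε := ⟨hv, ball_subset_ball (min_le_left _ _) hvb⟩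
  rw [hL.eq] at h3
  obtain ⟨s, -, rfl⟩ := h3
  rw [mem_ball, gdist' hL.unit, lt_min_iff, lt_min_iff] at hvb
  obtain ⟨-, k1, k2⟩ := hvb
  have k3 := abs_lt.1 k1
  have k4 := abs_lt.1 k2
  rw [add_assoc, ← add_smul]
  exact mem_seg (by linarith [k3.1]) (by linarith [k4.2]) hc

/-- neighbourhood of a tripod -/
theorem tri_loc {S : Set (E 2)} {y : E 2} {u : Fin 3 → E 2} {ε : ℝ} (T : Tri S y u ε)
    (c : Fin 3 → ℝ) (hc : ∀ i, 0 < c i) :
    ∃ δ > 0, ∀ v ∈ S ∩ ball y δ, ∃ i, v ∈ segment ℝ y (y + c i • u i) := by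
  refine ⟨min ε (min (c 0) (min (c 1) (c 2))),
    lt_min T.pos (lt_min (hc 0) (lt_min (hc 1) (hc 2))), ?_⟩
  rintro v ⟨hv, hvb⟩
  have h3 : v ∈ S ∩ ball y ε := ⟨hv, ball_subset_ball (min_le_left _ _) hvb⟩
  rw [T.eq] at h3
  obtain ⟨i, s, s0, -, rfl⟩ := h3
  refine ⟨i, mem_seg s0 ?_ (hc i)⟩
  rw [mem_ball, dist_eq_norm, add_sub_cancel_left, norm_smul, T.norm i, mul_one,
    Real.norm_of_nonneg s0, lt_min_iff, lt_min_iff, lt_min_iff] at hvb
  obtain ⟨-, k0, k1, k2⟩ := hvb
  fin_cases i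
  · exact k0.le
  · exact k1.le
  · exact k2.le

/-- the data of the arms of the points of `Y` -/
structure Dat (S : Set (E 2)) (Y : Finset (E 2)) (ρ : ℝ) (u : E 2 → Fin 3 → E 2) (ε : E 2 → ℝ)
    (c : E 2 → Fin 3 → ℝ) : Prop where
  tri : ∀ y ∈ Y, Tri S y (u y) (ε y)
  half : ∀ y ∈ Y, ‖y‖ < 1 / 2
  fin : ∀ y ∈ Y, ∀ i, End S y (u y i) (c y i)
  rho : 1 / 2 < ρ
  rho1 : ρ < 1
  out : ∀ y ∈ Y, ∀ i, y + c y i • u y i ∈ Y ∨ ρ < ‖y + c y i • u y i‖

/-- the end of an arm -/
def en (u : E 2 → Fin 3 → E 2) (c : E 2 → Fin 3 → ℝ) (y : E 2) (i : Fin 3) : E 2 :=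
  y + c y i • u y i

section
variable {S : Set (E 2)} {Y : Finset (E 2)} {ρ : ℝ} {u : E 2 → Fin 3 → E 2} {ε : E 2 → ℝ}
  {c : E 2 → Fin 3 → ℝ}

theorem Dat.back (D : Dat S Y ρ u ε c) {y w : E 2} (hy : y ∈ Y) {i : Fin 3} (h : en u c y i = w)
    (hw : w ∈ Y) : ∃ j, u w j = -u y i ∧ en u c w j = y := by
  have hE := D.fin y hy i
  have hw2 := D.half w hw
  have hy2 := D.half y hy
  rcases hE.fin with h1 | ⟨-, u', ε', T', j, hj⟩
  · have h2 : ‖w‖ = 1 := by rw [← h]; exact h1
    linarith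
  · have T'' : Tri S w u' ε' := by rw [← h]; exact T'
    obtain ⟨j', hj'⟩ := tri_dir T'' (D.tri w hw) j
    refine ⟨j', hj'.trans hj, ?_⟩
    have hE' := D.fin w hw j'
    have hd : u w j' = -u y i := hj'.trans hj
    rw [hd] at hE'
    have := end_back (D.tri y hy) (by linarith) hE h.symm hE'
    unfold en
    rw [hd]
    exact this

theorem Dat.inj (D : Dat S Y ρ u ε c) {y : E 2} (hy : y ∈ Y) {i j : Fin 3}
    (h : en u c y i = en u c y j) : i = j := by
  have h1 : c y i • u y i = c y j • u y j := add_left_cancel h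
  have h2 := pos_smul_unit ((D.tri y hy).norm i) ((D.tri y hy).norm j) (D.fin y hy i).pos
    (D.fin y hy j).pos h1
  exact tri_inj (D.tri y hy) h2.2

theorem Dat.ne (D : Dat S Y ρ u ε c) {y : E 2} (hy : y ∈ Y) (i : Fin 3) : en u c y i ≠ y := by
  intro h
  have h1 : c y i • u y i = 0 := by
    have : y + c y i • u y i = y := h
    simpa using this
  rw [smul_eq_zero] at h1
  rcases h1 with h1 | h1
  · exact (D.fin y hy i).pos.ne' h1
  · have := (D.tri y hy).norm i
    rw [h1, norm_zero] at this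
    norm_num at this

/-- at most five arms leave the disc of radius `ρ` -/
theorem Dat.count (D : Dat S Y ρ u ε c) (h5 : (S ∩ sphere 0 ρ).encard ≤ 5) :
    ∑ y ∈ Y, (Finset.univ.filter (fun i : Fin 3 => en u c y i ∉ Y)).card ≤ 5 := by
  classical
  rw [← Finset.card_sigma]
  set Out := Y.sigma (fun y => Finset.univ.filter (fun i : Fin 3 => en u c y i ∉ Y)) with hOut
  have hmem : ∀ p ∈ Out, p.1 ∈ Y ∧ en u c p.1 p.2 ∉ Y := by
    intro p hp
    rw [hOut, Finset.mem_sigma, Finset.mem_filter] at hp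
    exact ⟨hp.1, hp.2.2⟩
  have hex : ∀ p ∈ Out, ∃ t : ℝ, 0 < t ∧ t < c p.1 p.2 ∧ ‖p.1 + t • u p.1 p.2‖ = ρ := by
    intro p hp
    obtain ⟨hy, hn⟩ := hmem p hp
    have hE := D.fin p.1 hy p.2
    have hlt : ρ < ‖p.1 + c p.1 p.2 • u p.1 p.2‖ := (D.out p.1 hy p.2).resolve_left hn
    have hy2 := D.half p.1 hy
    have hcont : ContinuousOn (fun s : ℝ => ‖p.1 + s • u p.1 p.2‖) (Icc 0 (c p.1 p.2)) := by fun_prop
    have h0 : ‖p.1 + (0 : ℝ) • u p.1 p.2‖ ≤ ρ := by
      rw [zero_smul, add_zero]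
      linarith [D.rho]
    obtain ⟨t, ht, ht1⟩ := intermediate_value_Icc hE.pos.le hcont ⟨h0, hlt.le⟩
    refine ⟨t, lt_of_le_of_ne ht.1 ?_, lt_of_le_of_ne ht.2 ?_, ht1⟩
    · rintro rfl
      have h6 : ‖p.1 + (0 : ℝ) • u p.1 p.2‖ = ρ := ht1
      rw [zero_smul, add_zero] at h6
      linarith [D.rho]
    · rintro rfl
      have h6 : ‖p.1 + c p.1 p.2 • u p.1 p.2‖ = ρ := ht1
      linarith
  choose! t ht0 ht1 ht2 using hex
  have hfin : (S ∩ sphere (0 : E 2) ρ).Finite :=
    Set.finite_of_encard_le_coe (k := 5) (by exact_mod_cast h5)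
  have hcard : hfin.toFinset.card ≤ 5 := by
    have := hfin.encard_eq_coe_toFinset_card
    rw [this] at h5
    exact_mod_cast h5
  refine le_trans (Finset.card_le_card_of_injOn (fun p => p.1 + t p • u p.1 p.2) ?_ ?_) hcard
  · intro p hp
    have hp' : p ∈ Out := hp
    obtain ⟨hy, -⟩ := hmem p hp'
    obtain ⟨ε', hL⟩ := (D.fin p.1 hy p.2).ray (t p) (ht0 p hp') (ht1 p hp')
    show p.1 + t p • u p.1 p.2 ∈ (hfin.toFinset : Set (E 2))
    rw [Set.Finite.coe_toFinset]
    exact ⟨hL.z_mem, by rw [mem_sphere_zero_iff_norm]; exact ht2 p hp'⟩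
  · intro p hp p' hp' heq
    have hp1 : p ∈ Out := hp
    have hp1' : p' ∈ Out := hp'
    obtain ⟨hy, -⟩ := hmem p hp1
    obtain ⟨hy', -⟩ := hmem p' hp1'
    have heq' : p.1 + t p • u p.1 p.2 = p'.1 + t p' • u p'.1 p'.2 := heq
    obtain ⟨ε₁, hL⟩ := (D.fin p.1 hy p.2).ray (t p) (ht0 p hp1) (ht1 p hp1)
    obtain ⟨ε₂, hL'⟩ := (D.fin p'.1 hy' p'.2).ray (t p') (ht0 p' hp1') (ht1 p' hp1')
    rw [← heq'] at hL'
    rcases lin_dir hL hL' with hd | hd
    · -- the same direction
      rw [hd] at heq'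
      rcases lt_trichotomy (t p) (t p') with hlt | he | hgt
      · exfalso
        obtain ⟨ε₃, hL₃⟩ := (D.fin p'.1 hy' p'.2).ray (t p' - t p) (by linarith)
          (by linarith [ht1 p' hp1', ht0 p hp1])
        have e1 : p'.1 + (t p' - t p) • u p'.1 p'.2 = p.1 := by
          rw [hd, sub_smul, ← add_sub_assoc, ← heq']
          abel
        rw [e1] at hL₃
        exact lin_not_tri hL₃ (D.tri p.1 hy)
      · have e1 : p.1 = p'.1 := by
          rw [he] at heq'
          exact add_right_cancel heq'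
        obtain ⟨y, i⟩ := p
        obtain ⟨y', i'⟩ := p'
        obtain rfl : y = y' := e1
        have e2 : i' = i := tri_inj (D.tri y hy) hd
        rw [e2]
      · exfalso
        obtain ⟨ε₃, hL₃⟩ := (D.fin p.1 hy p.2).ray (t p - t p') (by linarith)
          (by linarith [ht1 p hp1, ht0 p' hp1'])
        have e1 : p.1 + (t p - t p') • u p.1 p.2 = p'.1 := by
          rw [sub_smul, ← add_sub_assoc, heq']
          abel
        rw [e1] at hL₃
        exact lin_not_tri hL₃ (D.tri p'.1 hy')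
    · -- opposite directions
      exfalso
      rw [hd, smul_neg] at heq'
      have e1 : p'.1 = p.1 + (t p + t p') • u p.1 p.2 := by
        rw [add_smul, ← add_assoc, heq']
        abel
      have h1 : ‖p.1 + t p • u p.1 p.2‖ < 1 / 2 := by
        refine norm_ray_lt (c := t p + t p') (ht0 p hp1).le (by linarith [ht0 p' hp1'])
          (D.half p.1 hy) ?_
        rw [← e1]
        exact (D.half p'.1 hy').le
      rw [ht2 p hp1] at h1
      linarith [D.rho]

theorem Dat.two (D : Dat S Y ρ u ε c) {m p q : E 2} (hY : Y = {m, p, q}) (hp : p ∈ Y) (hm : m ∈ Y)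
    (hno : ∀ i, en u c m i ≠ p) :
    2 ≤ (Finset.univ.filter (fun i : Fin 3 => en u c p i ∉ Y)).card := by
  classical
  have h1 : (Finset.univ.filter (fun i : Fin 3 => en u c p i ∈ Y)).card ≤ 1 := by
    rw [Finset.card_le_one]
    have key : ∀ i ∈ Finset.univ.filter (fun i : Fin 3 => en u c p i ∈ Y), en u c p i = q := by
      intro i hi
      have h2 : en u c p i ∈ Y := (Finset.mem_filter.1 hi).2
      have h3 := h2
      rw [hY] at h3
      simp only [Finset.mem_insert, Finset.mem_singleton] at h3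
      rcases h3 with h3 | h3 | h3
      · exfalso
        obtain ⟨j, -, hj⟩ := D.back hp h3 hm
        exact hno j hj
      · exact absurd h3 (D.ne hp i)
      · exact h3
    intro i hi j hj
    exact D.inj hp ((key i hi).trans (key j hj).symm)
  have h2 := Finset.card_filter_add_card_filter_not (s := (Finset.univ : Finset (Fin 3)))
    (fun i : Fin 3 => en u c p i ∈ Y)
  rw [Finset.card_univ, Fintype.card_fin] at h2
  omega

theorem Dat.join (D : Dat S Y ρ u ε c) (h5 : (S ∩ sphere 0 ρ).encard ≤ 5) {m p q : E 2}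
    (hmp : m ≠ p) (hmq : m ≠ q) (hpq : p ≠ q) (hY : Y = {m, p, q}) :
    (∃ i, en u c m i = p) ∨ ∃ i, en u c m i = q := by
  classical
  by_contra hne
  push Not at hne
  obtain ⟨hnp, hnq⟩ := hne
  have hm : m ∈ Y := by rw [hY]; simp
  have hp : p ∈ Y := by rw [hY]; simp
  have hq : q ∈ Y := by rw [hY]; simp
  have h3 : 3 ≤ (Finset.univ.filter (fun i : Fin 3 => en u c m i ∉ Y)).card := by
    have : Finset.univ.filter (fun i : Fin 3 => en u c m i ∉ Y) = Finset.univ := by
      rw [Finset.filter_eq_self]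
      intro i _ h
      rw [hY] at h
      simp only [Finset.mem_insert, Finset.mem_singleton] at h
      rcases h with h | h | h
      · exact D.ne hm i h
      · exact hnp i h
      · exact hnq i h
    rw [this, Finset.card_univ, Fintype.card_fin]
  have h2p := D.two hY hp hm hnp
  have h2q := D.two (m := m) (p := q) (q := p) (by rw [hY]; ext x; simp; tauto) hq hm hnq
  have hsum := D.count h5
  have e : ∑ y ∈ Y, (Finset.univ.filter (fun i : Fin 3 => en u c y i ∉ Y)).card =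
      (Finset.univ.filter (fun i : Fin 3 => en u c m i ∉ Y)).card +
      ((Finset.univ.filter (fun i : Fin 3 => en u c p i ∉ Y)).card +
      (Finset.univ.filter (fun i : Fin 3 => en u c q i ∉ Y)).card) := by
    have hY' : ∀ f : E 2 → ℕ, ∑ y ∈ Y, f y = f m + (f p + f q) := by
      intro f
      rw [hY, Finset.sum_insert, Finset.sum_insert, Finset.sum_singleton]
      · simpa using hpq
      · simp [hmp, hmq]
    exact hY' _
  rw [e] at hsum
  omega

/-- a triangle is impossible -/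
theorem Dat.noTri (D : Dat S Y ρ u ε c) {m p q : E 2} (hm : m ∈ Y) (hp : p ∈ Y) (_hq : q ∈ Y)
    (hpq : p ≠ q) (hmq : m ≠ q) {i1 i2 : Fin 3} (h1 : en u c m i1 = p) (h2 : en u c m i2 = q)
    (j : Fin 3) : en u c p j ≠ q := by
  intro h3
  obtain ⟨j0, -, hj0⟩ := D.back hm h1 hp
  have hi : i1 ≠ i2 := by
    rintro rfl
    exact hpq (h1.symm.trans h2)
  have hj : j0 ≠ j := by
    rintro rfl
    exact hmq (hj0.symm.trans h3)
  have f1 := far (D.tri m hm) hi (D.fin m hm i1).pos (D.fin m hm i2).pos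
  have f2 := far (D.tri p hp) hj (D.fin p hp j0).pos (D.fin p hp j).pos
  unfold en at h1 h2 h3 hj0
  rw [h1, h2] at f1
  rw [hj0, h3] at f2
  linarith

end

theorem three_cases : ∀ i i0 i1 i2 : Fin 3, i0 ≠ i1 → i0 ≠ i2 → i1 ≠ i2 →
    i = i0 ∨ i = i1 ∨ i = i2 := by decide

section
variable {S : Set (E 2)} {Y : Finset (E 2)} {ρ : ℝ} {u : E 2 → Fin 3 → E 2} {ε : E 2 → ℝ}
  {c : E 2 → Fin 3 → ℝ}

theorem Dat.core (D : Dat S Y ρ u ε c) {m p q : E 2} (hmp : m ≠ p) (hmq : m ≠ q)
    (hpq : p ≠ q) (hY : Y = {m, p, q}) {i0 i1 i2 : Fin 3} (h01 : i0 ≠ i1) (h02 : i0 ≠ i2)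
    (h12 : i1 ≠ i2) {φ : ℝ} (d0 : u m i0 = ev φ) (d1 : u m i1 = ev (φ + 2 * π / 3))
    (d2 : u m i2 = ev (φ - 2 * π / 3)) (e1 : en u c m i1 = p) (e2 : en u c m i2 = q) :
    ∃ φ s a v c, Geo φ s a v c ∧ InS S φ s v := by
  have hm : m ∈ Y := by rw [hY]; simp
  have hp : p ∈ Y := by rw [hY]; simp
  have hq : q ∈ Y := by rw [hY]; simp
  have hYm : ∀ z ∈ Y, z = m ∨ z = p ∨ z = q := by
    intro z hz
    rw [hY] at hz
    simpa using hz
  -- the arms of `p`
  obtain ⟨j0, dj0, ej0⟩ := D.back hm e1 hp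
  rw [d1, ← ev_sub_pi] at dj0
  obtain ⟨j1, j2, j01, j02, j12, dj1, dj2⟩ := tri_two (D.tri p hp) dj0
  -- the arms of `q`
  obtain ⟨k0, dk0, ek0⟩ := D.back hm e2 hq
  rw [d2, ← ev_add_pi] at dk0
  obtain ⟨k1, k2, k01, k02, k12, dk1, dk2⟩ := tri_two (D.tri q hq) dk0
  -- ends
  have n0 : en u c m i0 ∉ Y := by
    intro h
    rcases hYm _ h with h | h | h
    · exact D.ne hm i0 h
    · exact h01 (D.inj hm (h.trans e1.symm))
    · exact h02 (D.inj hm (h.trans e2.symm))
  have np : ∀ j, j0 ≠ j → en u c p j ∉ Y := by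
    intro j hj h
    rcases hYm _ h with h | h | h
    · exact hj (D.inj hp (ej0.trans h.symm))
    · exact D.ne hp j h
    · exact D.noTri hm hp hq hpq hmq e1 e2 j h
  have nq : ∀ k, k0 ≠ k → en u c q k ∉ Y := by
    intro k hk h
    rcases hYm _ h with h | h | h
    · exact hk (D.inj hq (ek0.trans h.symm))
    · exact D.noTri hm hq hp hpq.symm hmp e2 e1 k h
    · exact D.ne hq k h
  -- directions
  have dj1' : u p j1 = ev (φ + π / 3) := by
    rw [dj1]
    congr 1
    ring
  have dj2' : u p j2 = ev (φ + π) := by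
    rw [dj2, ← ev_two_pi]
    congr 1
    ring
  have dk1' : u q k1 = ev (φ + π) := by
    rw [dk1]
    congr 1
    ring
  have dk2' : u q k2 = ev (φ + 5 * π / 3) := by
    rw [dk2, ← ev_two_pi]
    congr 1
    ring
  let s : Fin 3 → E 2 := ![m, p, q]
  let a : Fin 2 → ℝ := ![c m i1, c m i2]
  let v : Fin 5 → E 2 := ![en u c m i0, en u c p j1, en u c p j2, en u c q k1, en u c q k2]
  let cc : Fin 5 → ℝ := ![c m i0, c p j1, c p j2, c q k1, c q k2]
  have hvn : ∀ i, v i ∉ Y := by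
    intro i
    fin_cases i
    · exact n0
    · exact np j1 j01
    · exact np j2 j02
    · exact nq k1 k01
    · exact nq k2 k02
  have hE : ∀ i, End S (s (ft i)) (dv φ i) (cc i) ∧ v i = s (ft i) + cc i • dv φ i := by
    intro i
    fin_cases i
    · have h := D.fin m hm i0
      have e : dv φ 0 = u m i0 := by
        rw [d0]
        show ev (φ + 0) = ev φ
        rw [add_zero]
      refine ⟨?_, ?_⟩
      · show End S m (dv φ 0) (c m i0)
        rw [e]
        exact h
      · show en u c m i0 = m + c m i0 • dv φ 0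
        rw [e]
        rfl
    · have h := D.fin p hp j1
      have e : dv φ 1 = u p j1 := by
        rw [dj1']
        rfl
      refine ⟨?_, ?_⟩
      · show End S p (dv φ 1) (c p j1)
        rw [e]
        exact h
      · show en u c p j1 = p + c p j1 • dv φ 1
        rw [e]
        rfl
    · have h := D.fin p hp j2
      have e : dv φ 2 = u p j2 := by
        rw [dj2']
        rfl
      refine ⟨?_, ?_⟩
      · show End S p (dv φ 2) (c p j2)
        rw [e]
        exact h
      · show en u c p j2 = p + c p j2 • dv φ 2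
        rw [e]
        rfl
    · have h := D.fin q hq k1
      have e : dv φ 3 = u q k1 := by
        rw [dk1']
        rfl
      refine ⟨?_, ?_⟩
      · show End S q (dv φ 3) (c q k1)
        rw [e]
        exact h
      · show en u c q k1 = q + c q k1 • dv φ 3
        rw [e]
        rfl
    · have h := D.fin q hq k2
      have e : dv φ 4 = u q k2 := by
        rw [dk2']
        rfl
      refine ⟨?_, ?_⟩
      · show End S q (dv φ 4) (c q k2)
        rw [e]
        exact h
      · show en u c q k2 = q + c q k2 • dv φ 4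
        rw [e]
        rfl
  have hG : Geo φ s a v cc :=
    { apos := by
        intro k
        fin_cases k
        · exact (D.fin m hm i1).pos
        · exact (D.fin m hm i2).pos
      s1 := by
        show p = m + c m i1 • ev (φ + 2 * π / 3)
        rw [← d1]
        exact e1.symm
      s2 := by
        show q = m + c m i2 • ev (φ - 2 * π / 3)
        rw [← d2]
        exact e2.symm
      sn := by
        intro k
        fin_cases k
        · exact D.half m hm
        · exact D.half p hp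
        · exact D.half q hq
      cpos := fun i => (hE i).1.pos
      vd := fun i => (hE i).2
      vlow := by
        have key : ∀ y ∈ Y, ∀ i, en u c y i ∉ Y → 1 / 2 ≤ ‖en u c y i‖ := by
          intro y hy i hn
          have := (D.out y hy i).resolve_left hn
          have h2 := D.rho
          unfold en
          linarith
        intro i
        fin_cases i
        · exact key m hm i0 n0
        · exact key p hp j1 (np j1 j01)
        · exact key p hp j2 (np j2 j02)
        · exact key q hq k1 (nq k1 k01)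
        · exact key q hq k2 (nq k2 k02)
      vup := by
        intro i
        rw [(hE i).2]
        exact (hE i).1.le }
  -- segments at the three points
  have hsm : ∀ i, segment ℝ m (en u c m i) ⊆ tree s v := by
    intro i
    rcases three_cases i i0 i1 i2 h01 h02 h12 with rfl | rfl | rfl
    · intro z hz
      exact Or.inr (mem_iUnion.2 ⟨0, hz⟩)
    · rw [e1]
      intro z hz
      exact Or.inl (Or.inl hz)
    · rw [e2]
      intro z hz
      exact Or.inl (Or.inr hz)
  have hsp : ∀ i, segment ℝ p (en u c p i) ⊆ tree s v := by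
    intro i
    rcases three_cases i j0 j1 j2 j01 j02 j12 with rfl | rfl | rfl
    · rw [ej0, segment_symm]
      intro z hz
      exact Or.inl (Or.inl hz)
    · intro z hz
      exact Or.inr (mem_iUnion.2 ⟨1, hz⟩)
    · intro z hz
      exact Or.inr (mem_iUnion.2 ⟨2, hz⟩)
  have hsq : ∀ i, segment ℝ q (en u c q i) ⊆ tree s v := by
    intro i
    rcases three_cases i k0 k1 k2 k01 k02 k12 with rfl | rfl | rfl
    · rw [ek0, segment_symm]
      intro z hz
      exact Or.inl (Or.inr hz)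
    · intro z hz
      exact Or.inr (mem_iUnion.2 ⟨3, hz⟩)
    · intro z hz
      exact Or.inr (mem_iUnion.2 ⟨4, hz⟩)
  have hlocY : ∀ y ∈ Y, (∀ i, segment ℝ y (en u c y i) ⊆ tree s v) →
      ∃ δ > 0, S ∩ ball y δ ⊆ tree s v := by
    intro y hy hs
    obtain ⟨δ, hδ, h⟩ := tri_loc (D.tri y hy) (c y) (fun i => (D.fin y hy i).pos)
    refine ⟨δ, hδ, fun z hz => ?_⟩
    obtain ⟨i, hi⟩ := h z hz
    exact hs i hi
  have hsS : ∀ k, s k ∈ S ∧ ∃ δ > 0, S ∩ ball (s k) δ ⊆ tree s v := by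
    intro k
    fin_cases k
    · exact ⟨tri_ymem (D.tri m hm), hlocY m hm hsm⟩
    · exact ⟨tri_ymem (D.tri p hp), hlocY p hp hsp⟩
    · exact ⟨tri_ymem (D.tri q hq), hlocY q hq hsq⟩
  have hE1 : End S m (u m i1) (c m i1) := D.fin m hm i1
  have hE2 : End S m (u m i2) (c m i2) := D.fin m hm i2
  have g1 : p = m + c m i1 • u m i1 := e1.symm
  have g2 : q = m + c m i2 • u m i2 := e2.symm
  refine ⟨φ, s, a, v, cc, hG, ?_, ?_, ?_⟩
  · rintro z ((hz | hz) | hz)
    · have hz' : z ∈ segment ℝ m (m + c m i1 • u m i1) := by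
        rw [← g1]
        exact hz
      exact hE1.seg (tri_ymem (D.tri m hm)) hz'
    · have hz' : z ∈ segment ℝ m (m + c m i2 • u m i2) := by
        rw [← g2]
        exact hz
      exact hE2.seg (tri_ymem (D.tri m hm)) hz'
    · obtain ⟨i, hi⟩ := mem_iUnion.1 hz
      rw [(hE i).2] at hi
      exact (hE i).1.seg (hsS (ft i)).1 hi
  · rintro z hz hzv
    by_cases hk : ∃ k, z = s k
    · obtain ⟨k, rfl⟩ := hk
      exact (hsS k).2
    push Not at hk
    rcases hz with (hz | hz) | hz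
    · have hz' : z ∈ segment ℝ m (m + c m i1 • u m i1) := by
        rw [← g1]
        exact hz
      obtain ⟨δ, hδ, h⟩ := hE1.loc hz' (hk 0) (by rw [← g1]; exact hk 1)
      refine ⟨δ, hδ, h.trans ?_⟩
      rw [← g1]
      intro w hw
      exact Or.inl (Or.inl hw)
    · have hz' : z ∈ segment ℝ m (m + c m i2 • u m i2) := by
        rw [← g2]
        exact hz
      obtain ⟨δ, hδ, h⟩ := hE2.loc hz' (hk 0) (by rw [← g2]; exact hk 2)
      refine ⟨δ, hδ, h.trans ?_⟩
      rw [← g2]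
      intro w hw
      exact Or.inl (Or.inr hw)
    · obtain ⟨i, hi⟩ := mem_iUnion.1 hz
      have hv := (hE i).2
      rw [hv] at hi
      obtain ⟨δ, hδ, h⟩ := (hE i).1.loc hi (hk (ft i)) (by rw [← hv]; exact hzv i)
      refine ⟨δ, hδ, h.trans ?_⟩
      rw [← hv]
      intro w hw
      exact Or.inr (mem_iUnion.2 ⟨i, hw⟩)
  · intro i
    rw [(hE i).2]
    rcases (hE i).1.fin with h | ⟨-, h⟩
    · exact Or.inl h
    · exact Or.inr h

end

theorem tree_row : NH_TREE := by
  classical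
  intro A S r h Y hY3 hY ρ hρ0 hρ1 h5 hsph
  have hnT : ∀ z : E 2, ‖z‖ < ρ → (∃ u ε, Tri S z u ε) → z ∈ Y := by
    intro z hz hT
    by_contra hzY
    have hc : (insert z Y).card = 4 := by
      rw [Finset.card_insert_of_notMem hzY, hY3]
    have h1 := h.L.sphere_count h.cl (insert z Y) (Finset.insert_nonempty z Y) (ρ₀ := ρ)
      (by
        intro y hy
        rw [mem_ball_zero_iff]
        rcases Finset.mem_insert.1 hy with rfl | hy
        · exact hz
        · linarith [(hY y hy).1])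
      (by
        intro y hy
        rcases Finset.mem_insert.1 hy with rfl | hy
        · exact hT
        · exact (hY y hy).2) (ρ := ρ) le_rfl (by linarith [h.r1])
    rw [hc] at h1
    have h2 := h1.trans h5
    norm_num at h2
  choose! u ε hT using fun y (hy : y ∈ Y) => (hY y hy).2
  have hex : ∀ y ∈ Y, ∀ i, ∃ c, End S y (u y i) c := fun y hy i =>
    arm_end h (hT y hy) (by linarith [(hY y hy).1]) i
  choose! c hc using hex
  have D : Dat S Y ρ u ε c :=
    { tri := hT
      half := fun y hy => (hY y hy).1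
      fin := hc
      rho := hρ0
      rho1 := hρ1
      out := by
        intro y hy i
        rcases (hc y hy i).fin with h1 | ⟨-, u', ε', T', -⟩
        · right
          rw [h1]
          exact hρ1
        · rcases lt_trichotomy (‖y + c y i • u y i‖) ρ with h2 | h2 | h2
          · exact Or.inl (hnT _ h2 ⟨u', ε', T'⟩)
          · exact absurd ⟨u', ε', T'⟩ (hsph _ (by rw [mem_sphere_zero_iff_norm]; exact h2))
          · exact Or.inr h2 }
  obtain ⟨x, y, z, hxy, hxz, hyz, hYe⟩ := Finset.card_eq_three.1 hY3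
  have hx : x ∈ Y := by rw [hYe]; simp
  have hy : y ∈ Y := by rw [hYe]; simp
  have hz : z ∈ Y := by rw [hYe]; simp
  -- the middle point
  have hmid : ∃ m p q, m ≠ p ∧ m ≠ q ∧ p ≠ q ∧ Y = {m, p, q} ∧ (∃ i, en u c m i = p) ∧
      ∃ i, en u c m i = q := by
    have P1 := D.join h5 hxy hxz hyz hYe
    have hYe2 : Y = {y, x, z} := by rw [hYe]; ext w; simp; tauto
    have hYe3 : Y = {z, x, y} := by rw [hYe]; ext w; simp; tauto
    have P2 := D.join h5 hxy.symm hyz hxz hYe2
    have P3 := D.join h5 hxz.symm hyz.symm hxy hYe3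
    have sym : ∀ a b : E 2, a ∈ Y → b ∈ Y → (∃ i, en u c a i = b) → ∃ i, en u c b i = a := by
      rintro a b ha hb ⟨i, hi⟩
      obtain ⟨j, -, hj⟩ := D.back ha hi hb
      exact ⟨j, hj⟩
    rcases P1 with h1 | h1
    · rcases P3 with h3 | h3
      · exact ⟨x, y, z, hxy, hxz, hyz, hYe, h1, sym z x hz hx h3⟩
      · exact ⟨y, x, z, hxy.symm, hyz, hxz, hYe2, sym x y hx hy h1, sym z y hz hy h3⟩
    · rcases P2 with h2 | h2
      · exact ⟨x, y, z, hxy, hxz, hyz, hYe, sym y x hy hx h2, h1⟩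
      · exact ⟨z, x, y, hxz.symm, hyz.symm, hxy, hYe3, sym x z hx hz h1, sym y z hy hz h2⟩
  obtain ⟨m, p, q, hmp, hmq, hpq, hYm, ⟨i1, e1⟩, ⟨i2, e2⟩⟩ := hmid
  have hm : m ∈ Y := by rw [hYm]; simp
  have h12 : i1 ≠ i2 := by
    rintro rfl
    exact hpq (e1.symm.trans e2)
  obtain ⟨i0, h01, h02⟩ : ∃ i0 : Fin 3, i0 ≠ i1 ∧ i0 ≠ i2 := by
    have : ∀ i1 i2 : Fin 3, ∃ i0 : Fin 3, i0 ≠ i1 ∧ i0 ≠ i2 := by decide
    exact this i1 i2
  obtain ⟨φ, d0⟩ := unit_ev ((D.tri m hm).norm i0)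
  obtain ⟨j, k, hij, hik, hjk, dj, dk⟩ := tri_two (D.tri m hm) d0
  rcases three_cases j i0 i1 i2 h01 h02 h12 with rfl | rfl | rfl
  · exact absurd rfl hij
  · rcases three_cases k i0 j i2 h01 h02 h12 with rfl | rfl | rfl
    · exact absurd rfl hik
    · exact absurd rfl hjk
    · exact D.core hmp hmq hpq hYm h01 h02 h12 d0 dj dk e1 e2
  · rcases three_cases k i0 i1 j h01 h02 h12 with rfl | rfl | rfl
    · exact absurd rfl hik
    · exact D.core hmq hmp hpq.symm (by rw [hYm]; ext w; simp; tauto) h02 h01 h12.symm d0 dj dk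
        e2 e1
    · exact absurd rfl hjk

end NH
end H11ST
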